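import Mathlib

set_option autoImplicit false

namespace Pool.Agent.Results.MP_a217de_gt.NotLocal

open Set Filter Topology TopologicalSpace Complex

/-- A continuum: a compact connected metrizable space. -/
def IsContinuum (X : Type) [TopologicalSpace X] : Prop :=
  CompactSpace X ∧ ConnectedSpace X ∧ MetrizableSpace X

/-- `p` is `C_a`-unstable in `M` for some nondegenerate continuum `C` and some `a ∈ C`. -/
def PseudoUnstable (M : Type) [TopologicalSpace M] (p : M) : Prop :=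
  ∃ (C : Type) (_ : TopologicalSpace C), IsContinuum C ∧ Nontrivial C ∧ ∃ (a : C) (F : M × C → M),
    Continuous F ∧ (∀ z, F (z, a) = z) ∧ ∀ z c, c ≠ a → F (z, c) ≠ p

noncomputable def ψ (r : ℝ) : ℂ := r * Circle.exp (-Real.log r)

lemma ψ_cont : Continuous ψ := by
  refine continuous_iff_continuousAt.2 fun r => ?_
  by_cases h : r = 0
  · subst h
    rw [ContinuousAt, tendsto_iff_norm_sub_tendsto_zero]
    simpa [ψ] using continuous_abs.tendsto' (0 : ℝ) 0 abs_zero
  · exact continuous_ofReal.continuousAt.mul (continuous_subtype_val.continuousAt.comp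
      (Circle.exp.continuous.continuousAt.comp (Real.continuousAt_log h).neg))

lemma ψ_mul (r s : ℝ) : ψ (r * s) = ψ r * ψ s := by
  by_cases h : r = 0
  · simp [ψ, h]
  by_cases h' : s = 0
  · simp [ψ, h']
  simp only [ψ, Real.log_mul h h', neg_add, Circle.exp_add, Circle.coe_mul, ofReal_mul]
  ring

def M : Set (ℝ × Circle) := {p | p.1 ∈ Icc (0 : ℝ) 1 ∧ (p.1 : ℂ) * p.2 = ψ p.1}

lemma M_closed : IsClosed M := (isClosed_Icc.preimage continuous_fst).inter
  (isClosed_eq (by fun_prop) (ψ_cont.comp continuous_fst))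

lemma M_pos {p : ℝ × Circle} (h : p ∈ M) (h0 : p.1 ≠ 0) : p.2 = Circle.exp (-Real.log p.1) :=
  Circle.ext (mul_left_cancel₀ (ofReal_ne_zero.2 h0) h.2)

lemma M_zero (z : Circle) : ((0 : ℝ), z) ∈ M := ⟨by simp, by simp [ψ]⟩

lemma M_one {p : ℝ × Circle} (h : p ∈ M) (h1 : p.1 = 1) : p = 1 :=
  Prod.ext h1 (by rw [M_pos h (by simp [h1]), h1]; simp)

lemma one_M : (1 : ℝ × Circle) ∈ M := ⟨by simp, by simp [ψ]⟩

lemma M_conn : IsPreconnected M := by
  have h1 : IsPreconnected ((fun t : ℝ => (Real.exp (-t), Circle.exp t)) '' Ici 0) :=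
    isPreconnected_Ici.image _ (Continuous.continuousOn (by fun_prop))
  refine h1.subset_closure ?_ fun p hp => ?_
  · rintro _ ⟨t, ht, rfl⟩
    exact ⟨⟨(Real.exp_pos _).le, Real.exp_le_one_iff.2 (by simpa using ht)⟩, by simp [ψ]⟩
  by_cases h : p.1 = 0
  · obtain ⟨θ, hθ⟩ := Circle.exp_surjective p.2
    have t1 : Tendsto (fun k : ℕ => θ + k * (2 * Real.pi)) atTop atTop :=
      tendsto_atTop_add_const_left _ _ (tendsto_natCast_atTop_atTop.atTop_mul_const (by positivity))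
    refine mem_closure_of_tendsto (f := fun k : ℕ => (Real.exp (-(θ + k * (2 * Real.pi))), p.2)) (b := atTop)
      ((h ▸ Real.tendsto_exp_neg_atTop_nhds_zero.comp t1).prodMk_nhds tendsto_const_nhds) ?_
    filter_upwards [t1.eventually_ge_atTop 0] with k hk
    exact ⟨_, hk, by simp [Circle.exp_add, hθ]⟩
  · have h0 : 0 < p.1 := lt_of_le_of_ne hp.1.1 (Ne.symm h)
    exact subset_closure ⟨-Real.log p.1, by simpa using Real.log_nonpos h0.le hp.1.2,
      Prod.ext (by simp [Real.exp_log h0]) (M_pos hp h).symm⟩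

abbrev A : Type := ℕ → ℝ × Circle

def X : Set A := {m | ∀ n, m n ∈ M ∧ ((m n).1 = 1 ∨ (m (n + 1)).1 = 0)}

noncomputable def k : A := fun _ => (0, 1)

lemma k_mem : k ∈ X := fun _ => ⟨M_zero _, Or.inr rfl⟩
lemma one_mem : (1 : A) ∈ X := fun _ => ⟨one_M, Or.inl rfl⟩
lemma one_ne : (1 : A) ≠ k := fun h => by simpa [k] using congrArg Prod.fst (congrFun h 0)

lemma mul_mem {a b : A} (ha : a ∈ X) (hb : b ∈ X) : a * b ∈ X := fun n => by
  obtain ⟨⟨a1, a2⟩, a3⟩ := ha n
  obtain ⟨⟨b1, b2⟩, b3⟩ := hb n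
  refine ⟨⟨⟨mul_nonneg a1.1 b1.1, mul_le_one₀ a1.2 b1.1 b1.2⟩, ?_⟩, ?_⟩
  · simp only [Pi.mul_apply, Prod.fst_mul, Prod.snd_mul, ψ_mul, ← a2, ← b2, ofReal_mul, Circle.coe_mul]
    ring
  · rcases a3 with a3 | a3 <;> rcases b3 with b3 | b3 <;> simp [*]

lemma X_compact : IsCompact X := by
  refine (isCompact_univ_pi fun _ => (isCompact_Icc (a := (0 : ℝ)) (b := 1)).prod isCompact_univ).of_isClosed_subset
    ?_ fun m hm n _ => ⟨(hm n).1.1, trivial⟩
  rw [X, setOf_forall]
  exact isClosed_iInter fun n => (M_closed.preimage (continuous_apply n : Continuous fun m : A => m n)).inter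
    ((isClosed_eq (f := fun m : A => (m n).1) (by fun_prop) continuous_const).union
      (isClosed_eq (f := fun m : A => (m (n + 1)).1) (by fun_prop) continuous_const))

lemma zero_of {m : A} (hm : m ∈ X) {n : ℕ} (h : (m n).1 ≠ 1) : ∀ j, n < j → (m j).1 = 0 := by
  intro j hj
  induction j, hj using Nat.le_induction with
  | base => exact (hm n).2.resolve_left h
  | succ j _ ih => exact (hm j).2.resolve_left (by simp [ih])

lemma X_conn : IsPreconnected X := by
  set S : ℕ → Set A := fun n => univ.pi fun j => if j < n then {1} else if j = n then M else {0} ×ˢ univ with hS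
  have h1 : IsPreconnected (⋃ n, S n) := by
    refine IsPreconnected.iUnion_of_chain (fun n => isPreconnected_univ_pi fun j => ?_) fun n => ?_
    · split_ifs
      exacts [isPreconnected_singleton, M_conn, isPreconnected_singleton.prod isPreconnected_univ]
    · refine ⟨fun j => if j ≤ n then 1 else (0, 1), fun j _ => ?_, fun j _ => ?_⟩ <;>
        simp only [Order.succ_eq_add_one] <;> split_ifs <;> first | omega | simp [one_M, M_zero]
  have h2 : ∀ n, (fun j => if j ≤ n then 1 else (0, 1) : A) ∈ S n := fun n j _ => by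
    simp only; split_ifs <;> first | omega | simp [one_M]
  refine h1.subset_closure (iUnion_subset fun n m hm j => ?_) fun m hm => ?_
  · have a1 := hm j trivial
    have a2 := hm (j + 1) trivial
    simp only at a1 a2
    split_ifs at a1 a2 <;> first | omega | skip
    all_goals first
      | exact ⟨a1 ▸ one_M, Or.inl (by rw [a1]; rfl)⟩
      | exact ⟨a1, Or.inr a2.1⟩
      | exact ⟨by have := M_zero (m j).2; rwa [← show (m j).1 = 0 from a1.1] at this, Or.inr a2.1⟩
  by_cases h : ∃ n, (m n).1 ≠ 1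
  · classical
    refine subset_closure (mem_iUnion.2 ⟨Nat.find h, fun j _ => ?_⟩)
    simp only
    split_ifs with b1 b2
    · exact M_one (hm j).1 (not_not.1 (Nat.find_min h b1))
    · exact (hm j).1
    · exact ⟨zero_of hm (Nat.find_spec h) j (by omega), trivial⟩
  · refine mem_closure_of_tendsto (b := atTop) (tendsto_pi_nhds.2 fun j => tendsto_const_nhds.congr' ?_)
      (Eventually.of_forall fun n => mem_iUnion.2 ⟨n, h2 n⟩)
    filter_upwards [eventually_ge_atTop j] with n hn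
    rw [if_pos hn, M_one (hm j).1 (by by_contra h'; exact h ⟨j, h'⟩)]

def Y : Set (A × ℝ) := X ×ˢ {0} ∪ {k} ×ˢ Icc 0 1

lemma Y_fst {w : A × ℝ} (h : w ∈ Y) : w.1 ∈ X := by
  rcases h with h | h
  exacts [h.1, h.1 ▸ k_mem]

lemma cont {E : Type} [TopologicalSpace E] [MetrizableSpace E] {S : Set E} (h1 : IsCompact S)
    (h2 : IsPreconnected S) (h3 : S.Nonempty) : IsContinuum S :=
  ⟨isCompact_iff_compactSpace.1 h1, isConnected_iff_connectedSpace.1 ⟨h3, h2⟩, inferInstance⟩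

lemma Y_cont : IsContinuum Y := cont ((X_compact.prod isCompact_singleton).union
  (isCompact_singleton.prod isCompact_Icc)) ((X_conn.prod isPreconnected_singleton).union (k, 0)
    ⟨k_mem, rfl⟩ ⟨rfl, by simp⟩ (isPreconnected_singleton.prod isPreconnected_Icc)) ⟨(k, 0), Or.inl ⟨k_mem, rfl⟩⟩

lemma bump {C : Type} [TopologicalSpace C] [CompactSpace C] [T2Space C] [ConnectedSpace C] [Nontrivial C]
    (a : C) {V : Set C} (hV : V ∈ 𝓝 a) :
    ∃ S ⊆ V, IsCompact S ∧ IsPreconnected S ∧ a ∈ S ∧ ∃ c ∈ S, c ≠ a := by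
  obtain ⟨b, hb⟩ := exists_ne a
  obtain ⟨K, k1, k2, k3⟩ := exists_mem_nhds_isClosed_subset (inter_mem hV (compl_singleton_mem_nhds hb.symm))
  have := isCompact_iff_compactSpace.1 k2.isCompact
  set a' : K := ⟨a, mem_of_mem_nhds k1⟩ with ha'
  refine ⟨(↑) '' connectedComponent a', fun _ ⟨x, _, h⟩ => h ▸ (k3 x.2).1,
    isClosed_connectedComponent.isCompact.image continuous_subtype_val,
    isPreconnected_connectedComponent.image _ continuous_subtype_val.continuousOn,
    ⟨a', mem_connectedComponent, rfl⟩, ?_⟩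
  by_contra h
  have h1 : ((↑) ⁻¹' (interior K)ᶜ : Set K) ∩ ⋂ Z : {Z : Set K // IsClopen Z ∧ a' ∈ Z}, Z = ∅ := by
    rw [← connectedComponent_eq_iInter_isClopen, eq_empty_iff_forall_notMem]
    rintro x ⟨h1, h2⟩
    have : x.1 = a := by by_contra h'; exact h ⟨x, ⟨x, h2, rfl⟩, h'⟩
    exact h1 (this ▸ mem_interior_iff_mem_nhds.2 k1)
  have : Nonempty {Z : Set K // IsClopen Z ∧ a' ∈ Z} := ⟨⟨univ, isClopen_univ, trivial⟩⟩
  obtain ⟨Z, hZ⟩ := (isOpen_interior.isClosed_compl.preimage continuous_subtype_val).isCompact.elim_directed_family_closed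
    _ (fun Z => Z.2.1.1) h1 fun Z W => ⟨⟨Z.1 ∩ W.1, Z.2.1.inter W.2.1, Z.2.2, W.2.2⟩,
      inter_subset_left, inter_subset_right⟩
  obtain ⟨O, o1, o2⟩ := isOpen_induced_iff.1 Z.2.1.2
  have e : (↑) '' Z.1 = O ∩ interior K := by
    ext x
    refine ⟨?_, fun h => ⟨⟨x, interior_subset h.2⟩, o2 ▸ h.1, rfl⟩⟩
    rintro ⟨z, hz, rfl⟩
    exact ⟨by rwa [← o2] at hz, by_contra fun h' => (eq_empty_iff_forall_notMem.1 hZ z) ⟨h', hz⟩⟩
  have h2 : IsClopen ((↑) '' Z.1 : Set C) := ⟨k2.isClosedMap_subtype_val _ Z.2.1.1, e ▸ o1.inter isOpen_interior⟩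
  obtain ⟨z, -, hz⟩ := (h2.eq_univ ⟨a, a', Z.2.2, rfl⟩).ge (mem_univ b)
  exact (k3 z.2).2 hz

lemma lifts {W C : Type} [TopologicalSpace W] [TopologicalSpace C] [PreconnectedSpace W] [CompactSpace C]
    {ζ : W × C → Circle} (hζ : Continuous ζ) {q : W} (hq : ∀ c, ζ (q, c) = 1) (y : W) :
    ∃ θ : C → ℝ, Continuous θ ∧ ∀ c, Circle.exp (θ c) = ζ (y, c) := by
  set L := {w | ∃ θ : C → ℝ, Continuous θ ∧ ∀ c, Circle.exp (θ c) = ζ (w, c)} with hL
  have near : ∀ w, ∀ᶠ w' in 𝓝 w, ∀ c, ((ζ (w', c) / ζ (w, c) : Circle) : ℂ).re > 0 := by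
    intro w
    have := isCompact_univ.eventually_forall_of_forall_eventually (x₀ := w)
      (P := fun w' c => ((ζ (w', c) / ζ (w, c) : Circle) : ℂ).re > 0) fun c _ =>
      (isOpen_lt continuous_const (continuous_re.comp (continuous_subtype_val.comp
        (hζ.div' (hζ.comp (continuous_const.prodMk continuous_snd)))))).mem_nhds
        (show 0 < ((ζ (w, c) / ζ (w, c) : Circle) : ℂ).re by simp)
    simpa using this
  have step : ∀ w w', (∀ c, ((ζ (w', c) / ζ (w, c) : Circle) : ℂ).re > 0) → (w ∈ L ↔ w' ∈ L) := by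
    intro w w' h
    have h1 : Continuous fun c => arg ((ζ (w', c) / ζ (w, c) : Circle) : ℂ) :=
      continuous_iff_continuousAt.2 fun c => (continuousAt_arg (Or.inl (h c))).comp
        (f := fun c => ((ζ (w', c) / ζ (w, c) : Circle) : ℂ)) (continuous_subtype_val.comp
          ((hζ.comp (Continuous.prodMk_right w')).div' (hζ.comp (Continuous.prodMk_right w)))).continuousAt
    exact ⟨fun ⟨θ, a1, a2⟩ => ⟨_, a1.fun_add h1, fun c => by rw [Circle.exp_add, Circle.exp_arg, a2]; simp⟩,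
      fun ⟨θ, a1, a2⟩ => ⟨_, a1.fun_sub h1, fun c => by rw [Circle.exp_sub, Circle.exp_arg, a2]; simp⟩⟩
  have h1 : IsClopen L := ⟨isOpen_compl_iff.1 (isOpen_iff_mem_nhds.2 fun w hw =>
    (near w).mono fun w' h h' => hw ((step w w' h).2 h')),
    isOpen_iff_mem_nhds.2 fun w hw => (near w).mono fun w' h => (step w w' h).1 hw⟩
  exact (h1.eq_univ ⟨q, fun _ => 0, continuous_const, fun c => by simp [hq]⟩).ge (mem_univ y)

lemma no_lift {C : Type} [TopologicalSpace C] [PreconnectedSpace C] {γ : C → ℝ × Circle} (hγ : Continuous γ)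
    (hM : ∀ c, γ c ∈ M) {a : C} (ha : (γ a).1 = 1) {θ : C → ℝ} (h1 : Continuous θ)
    (h2 : ∀ c, Circle.exp (θ c) = (γ c).2) (c : C) : (γ c).1 ≠ 0 := by
  have h : IsClopen {c | (γ c).1 = Real.exp (θ a - θ c)} := by
    refine ⟨isClosed_eq (by fun_prop) (by fun_prop), isOpen_iff_mem_nhds.2 fun c hc => ?_⟩
    have b0 : (γ c).1 ≠ 0 := by rw [hc]; positivity
    have b1 : ContinuousAt (fun c => θ c + Real.log (γ c).1 - θ a) c :=
      (h1.continuousAt.add (hγ.fst.continuousAt.log b0)).sub continuousAt_const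
    have b2 := b1.abs.eventually (gt_mem_nhds (show |θ c + Real.log (γ c).1 - θ a| < 2 * Real.pi by
      rw [hc]; simpa using Real.pi_pos))
    filter_upwards [b2, hγ.fst.continuousAt.eventually_ne b0] with d d1 d2
    have e1 : Circle.exp (θ d + Real.log (γ d).1) = Circle.exp (θ a) := by
      rw [Circle.exp_add, h2, h2, M_pos (hM d) d2, ← Circle.exp_add, M_one (hM a) ha]; simp
    obtain ⟨m, hm⟩ := Circle.exp_eq_exp.1 e1
    rw [hm, add_sub_cancel_left, abs_mul, abs_of_pos Real.two_pi_pos, mul_lt_iff_lt_one_left Real.two_pi_pos] at d1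
    have : m = 0 := Int.abs_lt_one_iff.1 (by exact_mod_cast d1)
    rw [this] at hm
    show _ = _
    rw [← Real.exp_log (lt_of_le_of_ne (hM d).1.1 d2.symm)]
    congr 1
    simpa [eq_sub_iff_add_eq'] using hm
  have := (h.eq_univ ⟨a, by simp [ha]⟩).ge (mem_univ c)
  rw [this]; positivity

/-- Pseudo-instability is not a local property of points of continua. -/
theorem result : ∃ (X Y : Type) (_ : TopologicalSpace X) (_ : TopologicalSpace Y),
    IsContinuum X ∧ IsContinuum Y ∧ ∃ (x : X) (y : Y) (U : Set X) (V : Set Y) (hU : U ∈ 𝓝 x) (_ : V ∈ 𝓝 y)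
      (h : U ≃ₜ V), (h ⟨x, mem_of_mem_nhds hU⟩ : Y) = y ∧ PseudoUnstable X x ∧ ¬ PseudoUnstable Y y := by
  have cX := cont X_compact X_conn ⟨k, k_mem⟩
  have snd0 : ∀ w : {w : Y | w.1.1 ≠ k}, w.1.1.2 = 0 := fun w => (w.1.2.resolve_right fun h => w.2 h.1).2
  refine ⟨X, Y, inferInstance, inferInstance, cX, Y_cont, ⟨1, one_mem⟩, ⟨(1, 0), Or.inl ⟨one_mem, rfl⟩⟩,
    {w | w.1 ≠ k}, {w | w.1.1 ≠ k}, (isOpen_ne_fun (by fun_prop) continuous_const).mem_nhds one_ne,
    (isOpen_ne_fun (by fun_prop) continuous_const).mem_nhds one_ne,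
    { toFun := fun w => ⟨⟨(w.1.1, 0), Or.inl ⟨w.1.2, rfl⟩⟩, w.2⟩
      invFun := fun w => ⟨⟨w.1.1.1, Y_fst w.1.2⟩, w.2⟩
      left_inv := fun _ => rfl
      right_inv := fun w => Subtype.ext (Subtype.ext (Prod.ext rfl (snd0 w).symm))
      continuous_toFun := by fun_prop
      continuous_invFun := by fun_prop }, rfl,
    ⟨X, inferInstance, cX, ⟨⟨1, one_mem⟩, ⟨k, k_mem⟩, fun h => one_ne (congrArg Subtype.val h)⟩, ⟨1, one_mem⟩,
      fun z => ⟨z.1.1 * z.2.1, mul_mem z.1.2 z.2.2⟩, by fun_prop, fun z => by simp, fun z c hc h => hc ?_⟩, ?_⟩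
  · refine Subtype.ext (funext fun n => M_one (c.2 n).1 ?_)
    have h1 : (z.1 n).1 * (c.1 n).1 = 1 := congrArg (fun w : X => (w.1 n).1) h
    have h2 := (z.2 n).1.1
    have h3 := (c.2 n).1.1
    nlinarith [h2.1, h2.2, h3.1, h3.2]
  rintro ⟨C, _, ⟨_, _, _⟩, _, a, F, f1, f2, f3⟩
  set q : Y := ⟨(k, 1), Or.inr ⟨rfl, by simp⟩⟩ with hq
  set y : Y := ⟨(1, 0), Or.inl ⟨one_mem, rfl⟩⟩ with hy
  obtain ⟨S, s1, s2, s3, s4, c, s5, s6⟩ := bump a (V := {c | (F (q, c)).1.2 ≠ 0})
    ((isOpen_ne_fun (by fun_prop) continuous_const).mem_nhds (by simp [f2, hq]))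
  have := isCompact_iff_compactSpace.1 s2
  have := isPreconnected_iff_preconnectedSpace.1 s3
  have := Y_cont.2.1
  obtain ⟨n, hn⟩ : ∃ n, ((F (y, c)).1.1 n).1 = 0 := by
    rcases (F (y, c)).2 with h | h
    · by_contra h'
      refine f3 y c s6 (Subtype.ext (Prod.ext (funext fun n => M_one (h.1 n).1 ?_) h.2))
      exact (h.1 n).2.resolve_right fun h => h' ⟨_, h⟩
    · exact ⟨0, by rw [h.1]; rfl⟩
  obtain ⟨θ, t1, t2⟩ := lifts (ζ := fun z : Y × S => ((F (z.1, z.2.1)).1.1 n).2) (by fun_prop) (q := q)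
    (fun d => by rw [((F (q, d.1)).2.resolve_left fun h => s1 d.2 h.2).1]; rfl) y
  exact no_lift (γ := fun d : S => (F (y, d.1)).1.1 n) (by fun_prop) (fun d => (Y_fst (F (y, d.1)).2 n).1)
    (a := ⟨a, s4⟩) (by simp [f2, hy]) t1 t2 ⟨c, s5⟩ hn

end Pool.Agent.Results.MP_a217de_gt.NotLocal
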